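import Pool.Agent.H455.LG3

/-!
# Lang's lower bound for rational linear forms: five rationals and all `ε < 2 / 13`

For positive rationals `a_j` and integers `b_j` let `Λ = ∑ b_j log a_j`, `B_j = max (1, |b_j|)`,
`A_j` the maximum of the numerator and the denominator of `a_j`, `B = max B_j` and
`X = ∏ B_j A_j ^ 2`.  The question (Q1) is whether `|Λ| > C(ε)^n B / X ^ (1 + ε)` when `Λ ≠ 0`.

(1) For every number `n ≥ 5` of terms and every `ε < 2 / 13` (`θ = 1`) the inequality fails for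
infinitely many tuples.
(2) For `n = 4` and every `ε < 1 / 14` it fails for at least `c Y ^ (1 / 14)` tuples with `X ≤ Y`, with
multiplicatively independent rationals.
-/

set_option autoImplicit false

open Finset Filter

namespace Pool.Agent.Results.MP_90c6bd_nt.FiveRationals

/-- `Λ = ∑ b_j log a_j` -/
noncomputable def Lam {n : ℕ} (a : Fin n → ℚ) (b : Fin n → ℤ) : ℝ :=
  ∑ j, (b j : ℝ) * Real.log (a j : ℝ)

/-- `B = max B_j`, `B_j = max (1, |b_j|)` -/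
noncomputable def maxB {n : ℕ} (b : Fin n → ℤ) : ℝ :=
  ((Finset.univ.sup fun j => max (b j).natAbs 1 : ℕ) : ℝ)

/-- `X = ∏ B_j * ∏ A_j ^ 2`, `A_j = max (num a_j) (den a_j)` -/
noncomputable def size {n : ℕ} (a : Fin n → ℚ) (b : Fin n → ℤ) : ℝ :=
  (∏ j, ((max (b j).natAbs 1 : ℕ) : ℝ)) *
    ∏ j, ((max (a j).num.natAbs (a j).den : ℕ) : ℝ) ^ 2

/-- `a_j > 0`, `a_j ≠ 1`, `b_j ≠ 0`, `Λ ≠ 0` and `|Λ| < C B ^ θ / X ^ (1 + ε)` -/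
def Violates {n : ℕ} (C θ ε : ℝ) (a : Fin n → ℚ) (b : Fin n → ℤ) : Prop :=
  (∀ j, 0 < a j ∧ a j ≠ 1) ∧ (∀ j, b j ≠ 0) ∧ Lam a b ≠ 0 ∧
    |Lam a b| < C * maxB b ^ θ / size a b ^ (1 + ε)

/-- multiplicative independence -/
def MultIndep {n : ℕ} (a : Fin n → ℚ) : Prop :=
  ∀ k : Fin n → ℤ, ∏ j, a j ^ k j = 1 → k = 0

theorem result :
    (∀ n : ℕ, 5 ≤ n → ∀ θ ε C : ℝ, 0 ≤ θ → 0 ≤ ε → 13 * ε < 2 * θ → 0 < C →
      {p : (Fin n → ℚ) × (Fin n → ℤ) | Violates C θ ε p.1 p.2}.Infinite) ∧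
    (∀ θ ε C : ℝ, 0 ≤ θ → 0 ≤ ε → 14 * ε < 2 * θ - 1 → 0 < C →
      ∃ c : ℝ, 0 < c ∧ ∀ᶠ Y : ℝ in atTop, ∃ S : Finset ((Fin 4 → ℚ) × (Fin 4 → ℤ)),
        c * Y ^ (1 / 14 : ℝ) ≤ (S.card : ℝ) ∧
        ∀ p ∈ S, Violates C θ ε p.1 p.2 ∧ MultIndep p.1 ∧ size p.1 p.2 ≤ Y) :=
  ⟨fun n hn θ ε C hθ hε h hC => Pool.Agent.H455.LG.five n hn θ ε C hθ hε h hC,
    fun θ ε C hθ hε h hC => Pool.Agent.H455.LG.four θ ε C hθ hε h hC⟩

end Pool.Agent.Results.MP_90c6bd_nt.FiveRationals
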