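import Pool.Agent.H609.LG.Five

/-!
# Lang's lower bound for rational linear forms holds for every `ε` exactly for one term

For one term the inequality is true with `C = 1` for every `ε ≥ 0`.  For every number `n ≥ 2` of terms it
fails, for all `ε < 1 / 40` (`n = 2`), `ε < 2 / 39` (`n = 3`), `ε < 1 / 7` (`n = 4`), `ε < 2 / 13` (`n ≥ 5`).
-/

set_option autoImplicit false

open Finset Filter

namespace Pool.Agent.Results.MP_90c6bd_nt.FromTwoTerms

/-- `Λ = ∑ b_j log a_j` -/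
noncomputable def form {n : ℕ} (a : Fin n → ℚ) (b : Fin n → ℤ) : ℝ :=
  ∑ j, ((b j : ℤ) : ℝ) * Real.log ((a j : ℚ) : ℝ)

/-- the product of all `B_j = max (|b_j|, 1)` and all `A_j ^ 2`, where `A_j` is the maximum of the
numerator and the denominator of `a_j > 0` -/
noncomputable def size {n : ℕ} (a : Fin n → ℚ) (b : Fin n → ℤ) : ℝ :=
  (∏ j, ((max (b j).natAbs 1 : ℕ) : ℝ)) *
    (∏ j, (((max (a j).num.natAbs (a j).den : ℕ)) : ℝ) ^ 2)

/-- `B = max B_j` -/
noncomputable def maxB {n : ℕ} (b : Fin n → ℤ) : ℝ :=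
  ((Finset.univ.sup fun j => max (b j).natAbs 1 : ℕ) : ℝ)

/-- the exponents: `1/40` for two, `2/39` for three, `1/7` for four, `2/13` for more terms -/
noncomputable def e (n : ℕ) : ℝ :=
  if n = 2 then 1 / 40 else if n = 3 then 2 / 39 else if n = 4 then 1 / 7 else 2 / 13

theorem height_one (a : ℚ) (ha : 0 < a) (h1 : a ≠ 1) (A : ℝ)
    (hA : A = ((max a.num.natAbs a.den : ℕ) : ℝ)) : 1 < A ∧ 1 / A ^ 2 < |Real.log ((a : ℚ) : ℝ)| := by
  have hn : 0 < a.num := Rat.num_pos.2 ha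
  have hd : 0 < a.den := a.pos
  have hne : a.num ≠ (a.den : ℤ) := by
    intro h
    apply h1
    have := Rat.num_div_den a
    rw [← this, h]
    field_simp
    simp
  obtain ⟨p, hp⟩ : ∃ p : ℕ, a.num = (p : ℤ) := ⟨a.num.natAbs, by rw [Int.natAbs_of_nonneg hn.le]⟩
  have hp0 : 0 < p := by have := hn; rw [hp] at this; exact_mod_cast this
  have hpd : p ≠ a.den := by
    intro h
    exact hne (by rw [hp, h])
  have har : ((a : ℚ) : ℝ) = (p : ℝ) / (a.den : ℝ) := by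
    have := Rat.cast_def (K := ℝ) a
    rw [this, hp]
    push_cast; rfl
  have hA' : A = ((max p a.den : ℕ) : ℝ) := by rw [hA, hp]; simp
  -- the general fact for `1 ≤ m < M`
  have key : ∀ m M : ℕ, 0 < m → m < M → (1:ℝ) < M ∧ 1 / (M:ℝ)^2 < Real.log ((M:ℝ) / m) := by
    intro m M hm hM
    have hM1 : (1:ℝ) < M := by exact_mod_cast lt_of_le_of_lt hm hM
    have hmr : (0:ℝ) < m := by exact_mod_cast hm
    have hMm : (m:ℝ) + 1 ≤ M := by exact_mod_cast hM
    refine ⟨hM1, ?_⟩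
    have h2 : Real.log ((m:ℝ) / M) ≤ (m:ℝ) / M - 1 := Real.log_le_sub_one_of_pos (by positivity)
    have h3 : Real.log ((M:ℝ) / m) = - Real.log ((m:ℝ) / M) := by
      rw [← Real.log_inv, inv_div]
    have h4 : 1 / (M:ℝ) ≤ Real.log ((M:ℝ) / m) := by
      rw [h3]
      have : (m:ℝ) / M ≤ 1 - 1 / M := by
        rw [div_le_iff₀ (by linarith)]
        field_simp
        linarith
      linarith
    refine lt_of_lt_of_le ?_ h4
    rw [div_lt_div_iff₀ (by positivity) (by positivity)]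
    nlinarith
  rcases Nat.lt_or_gt_of_ne hpd with h | h
  · obtain ⟨h2, h3⟩ := key p a.den hp0 h
    have hmax : A = (a.den : ℝ) := by rw [hA', max_eq_right h.le]
    rw [hmax, har]
    refine ⟨h2, lt_of_lt_of_le h3 ?_⟩
    rw [← abs_neg, ← Real.log_inv, inv_div]
    exact le_abs_self _
  · obtain ⟨h2, h3⟩ := key a.den p hd h
    have hmax : A = (p : ℝ) := by rw [hA', max_eq_left h.le]
    rw [hmax, har]
    exact ⟨h2, lt_of_lt_of_le h3 (le_abs_self _)⟩

theorem one_term (ε : ℝ) (hε : 0 ≤ ε) (a : Fin 1 → ℚ) (b : Fin 1 → ℤ) (ha : ∀ j, 0 < a j)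
    (hΛ : form a b ≠ 0) : maxB b / size a b ^ (1 + ε) < |form a b| := by
  have hform : form a b = ((b 0 : ℤ) : ℝ) * Real.log ((a 0 : ℚ) : ℝ) := by
    unfold form; rw [Fin.sum_univ_one]
  rw [hform] at hΛ ⊢
  have hb : b 0 ≠ 0 := by
    intro h
    apply hΛ
    rw [h]; simp
  have ha1 : a 0 ≠ 1 := by
    intro h
    apply hΛ
    rw [h]; simp
  have hbn : 1 ≤ (b 0).natAbs := Int.natAbs_pos.2 hb
  obtain ⟨A, hA⟩ : ∃ A : ℝ, A = ((max (a 0).num.natAbs (a 0).den : ℕ) : ℝ) := ⟨_, rfl⟩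
  obtain ⟨h1, h2⟩ := height_one (a 0) (ha 0) ha1 A hA
  have hB : maxB b = |((b 0 : ℤ) : ℝ)| := by
    unfold maxB
    have : (Finset.univ.sup fun j : Fin 1 => max (b j).natAbs 1) = (b 0).natAbs := by
      rw [Finset.univ_unique, Finset.sup_singleton]
      simp [hbn]
    rw [this, Nat.cast_natAbs]
    push_cast; rfl
  have hS : size a b = |((b 0 : ℤ) : ℝ)| * A ^ 2 := by
    unfold size
    rw [Fin.prod_univ_one, Fin.prod_univ_one, ← hA, max_eq_left hbn, Nat.cast_natAbs]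
    push_cast; rfl
  have hb1 : (1:ℝ) ≤ |((b 0 : ℤ) : ℝ)| := by
    have : (1:ℤ) ≤ |b 0| := Int.one_le_abs hb
    exact_mod_cast this
  rw [hB, hS, abs_mul]
  generalize |((b 0 : ℤ) : ℝ)| = β at hb1
  have hA2 : 0 < A ^ 2 := by positivity
  have h3 : A ^ 2 ≤ (β * A ^ 2) ^ (1 + ε) := by
    have h4 : 1 ≤ β * A ^ 2 := by nlinarith
    calc A ^ 2 ≤ β * A ^ 2 := by nlinarith
      _ = (β * A ^ 2) ^ (1:ℝ) := by rw [Real.rpow_one]
      _ ≤ (β * A ^ 2) ^ (1 + ε) := Real.rpow_le_rpow_of_exponent_le h4 (by linarith)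
  calc β / (β * A ^ 2) ^ (1 + ε) ≤ β / A ^ 2 := by gcongr
    _ = β * (1 / A ^ 2) := by ring
    _ < β * |Real.log ((a 0 : ℚ) : ℝ)| := by gcongr

/-- (1) For one term Lang's inequality holds, with `C = 1`, for all `ε ≥ 0`.
For every number `n ≥ 2` of terms it fails:
(2) there is `K` such that there are positive rational numbers `a_j` and nonzero integers `b_j` with
arbitrarily large `X = ∏ B_j A_j ^ 2`, with `Λ ≠ 0` and `|Λ| ≤ K B / X ^ (1 + e n)`;
(3) for all `ε < e n` and `C > 0` there are positive rational numbers `a_j` and nonzero integers `b_j`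
with arbitrarily large `X`, with `Λ ≠ 0` and `|Λ| < C ^ n B / X ^ (1 + ε)`. -/
theorem result :
    (∀ ε : ℝ, 0 ≤ ε → ∀ (a : Fin 1 → ℚ) (b : Fin 1 → ℤ), (∀ j, 0 < a j) → form a b ≠ 0 →
      maxB b / size a b ^ (1 + ε) < |form a b|) ∧
    ∀ n : ℕ, 2 ≤ n →
    (∃ K : ℝ, ∀ H : ℝ, ∃ (a : Fin n → ℚ) (b : Fin n → ℤ), (∀ j, 0 < a j) ∧ (∀ j, b j ≠ 0) ∧
      H < size a b ∧ form a b ≠ 0 ∧ |form a b| ≤ K * maxB b / size a b ^ (1 + e n)) ∧
    (∀ ε C H : ℝ, ε < e n → 0 < C → ∃ (a : Fin n → ℚ) (b : Fin n → ℤ), (∀ j, 0 < a j) ∧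
      (∀ j, b j ≠ 0) ∧ H < size a b ∧ form a b ≠ 0 ∧
      |form a b| < C ^ n * maxB b / size a b ^ (1 + ε)) := by
  refine ⟨one_term, fun n hn => ?_⟩
  have h : Pool.Agent.H609.LG.Sharp n (e n) := by
    unfold e
    split_ifs with h2 h3 h4
    · subst h2; exact Pool.Agent.H609.LG.sharp_two
    · subst h3; exact Pool.Agent.H609.LG.sharp_three
    · subst h4; exact Pool.Agent.H609.LG.sharp_four
    · obtain ⟨k, rfl⟩ : ∃ k, n = 5 + k := ⟨n - 5, by omega⟩
      exact Pool.Agent.H609.LG.sharp_five.pad (by norm_num) k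
  exact ⟨h, h.strict (by omega)⟩

end Pool.Agent.Results.MP_90c6bd_nt.FromTwoTerms
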